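import Pool.Agent.H99.P1.Smooth

/-!
Irreducibility and dimension of the projective line.
-/

open CategoryTheory AlgebraicGeometry Limits TopologicalSpace MvPolynomial Opposite

namespace Pool.Agent.H99.P1

noncomputable section

attribute [local instance] MvPolynomial.gradedAlgebra

/-- a space covered by two open irreducible subsets which meet is irreducible -/
lemma irred_two {X : Type*} [TopologicalSpace X] (U : Fin 2 → Set X) (hU : ∀ i, IsOpen (U i))
    (hi : ∀ i, IsIrreducible (U i)) (hc : ∀ x, ∃ i, x ∈ U i) (w : X) (hw : ∀ i, w ∈ U i) :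
    IrreducibleSpace X := by
  have key : ∀ A : Set X, IsOpen A → A.Nonempty → (U 0 ∩ A).Nonempty := by
    rintro A hA ⟨a, ha⟩
    obtain ⟨i, hai⟩ := hc a
    fin_cases i
    · exact ⟨a, hai, ha⟩
    · obtain ⟨x, _, hx1, hx2⟩ := (hi 1).2 A (U 0) hA (hU 0) ⟨a, hai, ha⟩ ⟨w, hw 1, hw 0⟩
      exact ⟨x, hx2, hx1⟩
  have hpre : PreirreducibleSpace X := by
    constructor
    intro A B hA hB hA1 hB1
    obtain ⟨x, _, h1, h2⟩ := (hi 0).2 A B hA hB (key A hA (by simpa using hA1))
      (key B hB (by simpa using hB1))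
    exact ⟨x, trivial, h1, h2⟩
  exact { hpre with toNonempty := ⟨w⟩ }

/-- Krull dimension is local -/
lemma dim_le_of_cover {X : Type*} [TopologicalSpace X] {ι : Type*} (Y : ι → Type*)
    [∀ i, TopologicalSpace (Y i)] (f : ∀ i, Y i → X) (hf : ∀ i, Topology.IsOpenEmbedding (f i))
    (hc : ∀ x, ∃ i, x ∈ Set.range (f i)) (d : WithBot ℕ∞) (hd : ∀ i, topologicalKrullDim (Y i) ≤ d) :
    topologicalKrullDim X ≤ d := by
  rw [topologicalKrullDim, Order.krullDim_eq_iSup_coheight]
  refine iSup_le fun Z => ?_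
  obtain ⟨z, hz⟩ := Z.isIrreducible.nonempty
  obtain ⟨i, y, hy⟩ := hc z
  have hne : (f i ⁻¹' (Z : Set X)).Nonempty := ⟨y, by rw [Set.mem_preimage, hy]; exact hz⟩
  have h1 := (IrreducibleCloseds.orderIsoOfIsOpenEmbedding (f i) (hf i)).apply_symm_apply ⟨Z, hne⟩
  have h2 : IrreducibleCloseds.map (f i) (hf i).continuous
      ((IrreducibleCloseds.orderIsoOfIsOpenEmbedding (f i) (hf i)).symm ⟨Z, hne⟩) = Z :=
    congrArg Subtype.val h1
  rw [← h2, (hf i).coheight_map]
  exact (Order.coheight_le_krullDim _).trans (hd i)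

variable {R : Type} [CommRing R]

/-- The coordinate is the quotient of the two homogeneous coordinates. -/
lemma ch_preimage (i : Fin 2) : ch R i ⁻¹ᵁ Proj.basicOpen (gr R) (X (1 - i)) =
    PrimeSpectrum.basicOpen (crd R i) := by
  rw [ch, Proj.awayι_preimage_basicOpen (gr R) (X_mem R i) one_pos (X_mem R (1 - i)) one_pos]
  congr 1
  apply HomogeneousLocalization.val_injective
  rw [crd, HomogeneousLocalization.Away.isLocalizationElem, HomogeneousLocalization.Away.val_mk,
    HomogeneousLocalization.Away.val_mk]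
  simp

lemma mem_range_other (i : Fin 2) (x : Spec (.of (Ch R i)))
    (hx : x ∈ PrimeSpectrum.basicOpen (crd R i)) (j : Fin 2) :
    ch R i x ∈ (ch R j).opensRange := by
  by_cases hij : j = i
  · subst hij
    exact ⟨x, rfl⟩
  · have : j = 1 - i := by
      revert hij
      fin_cases i <;> fin_cases j <;> simp
    subst this
    rw [opensRange_ch]
    have h : x ∈ ch R i ⁻¹ᵁ Proj.basicOpen (gr R) (X (1 - i)) := by
      rw [ch_preimage]; exact hx
    exact h

/-- criterion of irreducibility of a scheme over the projective line -/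
lemma irred_over {W : Scheme.{0}} (q : W ⟶ P1 R)
    (h : ∀ i, IrreducibleSpace ↥(pullback q (ch R i)))
    (w : W) (hw : ∀ i, q w ∈ (ch R i).opensRange) : IrreducibleSpace W := by
  have hr : ∀ i, Set.range (pullback.fst q (ch R i)) = q ⁻¹' (ch R i).opensRange := by
    intro i
    simp [IsOpenImmersion.range_pullbackFst]
  refine irred_two (fun i => Set.range (pullback.fst q (ch R i))) ?_ ?_ ?_ w ?_
  · intro i
    exact (pullback.fst q (ch R i)).isOpenEmbedding.isOpen_range
  · intro i
    have := h i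
    rw [← Set.image_univ]
    exact (IrreducibleSpace.isIrreducible_univ _).image _
      (pullback.fst q (ch R i)).continuous.continuousOn
  · intro x
    have := iSup_ch R
    have hx : q x ∈ ⨆ i, (ch R i).opensRange := by rw [this]; trivial
    obtain ⟨i, hi⟩ := Opens.mem_iSup.1 hx
    exact ⟨i, by rw [hr]; exact hi⟩
  · intro i
    rw [hr]
    exact hw i

/-- a point over a field -/
def pt (K : Type) [Field K] (φ : Ch R 0 →+* K) : Spec (.of K) ⟶ P1 R :=
  Spec.map (CommRingCat.ofHom φ) ≫ ch R 0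

lemma pt_mem (K : Type) [Field K] (φ : Ch R 0 →+* K) (hφ : φ (crd R 0) ≠ 0) (x : Spec (.of K))
    (i : Fin 2) : pt K φ x ∈ (ch R i).opensRange := by
  rw [pt, Scheme.Hom.comp_apply]
  apply mem_range_other
  intro h
  have h2 : φ (crd R 0) ∈ x.asIdeal := h
  have : IsUnit (φ (crd R 0)) := isUnit_iff_ne_zero.2 hφ
  exact x.2.ne_top (Ideal.eq_top_of_isUnit_mem _ h2 this)

/-- ring homomorphism given by sending the coordinate to an element -/
def evalCh {S : Type} [CommRing S] (f : R →+* S) (s : S) : Ch R 0 →+* S :=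
  (Polynomial.eval₂RingHom f s).comp (chEquiv R 0).symm

lemma evalCh_crd {S : Type} [CommRing S] (f : R →+* S) (s : S) : evalCh f s (crd R 0) = s := by
  rw [evalCh, ← chEquiv_X]; simp

lemma evalCh_cst {S : Type} [CommRing S] (f : R →+* S) (s : S) (r : R) :
    evalCh f s (cst R 0 r) = f r := by
  rw [evalCh, ← chEquiv_C]; simp

end

end Pool.Agent.H99.P1
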