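import Mathlib

/-!
The standard charts of the projective line over an arbitrary commutative ring:
`HomogeneousLocalization.Away _ (X i)` is a polynomial ring in one variable.
-/

open MvPolynomial

namespace Pool.Agent.H99.P1

noncomputable section

attribute [local instance] MvPolynomial.gradedAlgebra

variable (R : Type) [CommRing R]

/-- The grading of `R[x₀, x₁]`. -/
abbrev gr : ℕ → Submodule R (MvPolynomial (Fin 2) R) := homogeneousSubmodule (Fin 2) R

/-- The coordinate ring of the chart `D₊(x_i)`. -/
abbrev Ch (i : Fin 2) : Type := HomogeneousLocalization.Away (gr R) (X i)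

lemma X_mem (i : Fin 2) : (X i : MvPolynomial (Fin 2) R) ∈ gr R 1 :=
  (mem_homogeneousSubmodule _ _).2 (isHomogeneous_X _ _)

/-- The constants. -/
def cst (i : Fin 2) : R →+* Ch R i :=
  (HomogeneousLocalization.fromZeroRingHom (gr R) _).comp (algebraMap R (gr R 0))

lemma val_cst (i : Fin 2) (r : R) :
    (cst R i r).val = algebraMap (MvPolynomial (Fin 2) R) _ (C r) := by
  rfl

/-- the localization map -/
abbrev loc (i : Fin 2) : MvPolynomial (Fin 2) R →+*
    Localization.Away (X i : MvPolynomial (Fin 2) R) := algebraMap _ _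

/-- the coordinate on the chart -/
def crd (i : Fin 2) : Ch R i :=
  HomogeneousLocalization.Away.mk (gr R) (X_mem R i) 1 (X (1 - i)) (by simpa using X_mem R (1 - i))

lemma val_crd (i : Fin 2) :
    loc R i (X i) * (crd R i).val = loc R i (X (1 - i)) := by
  rw [crd, HomogeneousLocalization.Away.val_mk, loc, ← Localization.mk_one_eq_algebraMap,
    ← Localization.mk_one_eq_algebraMap, Localization.mk_mul, Localization.mk_eq_mk_iff,
    Localization.r_iff_exists]
  exact ⟨1, by simp⟩

/-- From polynomials to the chart. -/
def toCh (i : Fin 2) : Polynomial R →+* Ch R i :=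
  Polynomial.eval₂RingHom (cst R i) (crd R i)

/-- dehomogenisation -/
def dehom (i : Fin 2) : MvPolynomial (Fin 2) R →+* Polynomial R :=
  MvPolynomial.eval₂Hom (Polynomial.C) (fun k => if k = i then 1 else Polynomial.X)

lemma isUnit_dehom (i : Fin 2) : IsUnit (dehom R i (X i)) := by
  simp [dehom]

/-- From the chart to polynomials. -/
def ofCh (i : Fin 2) : Ch R i →+* Polynomial R :=
  (Localization.awayLift (dehom R i) (X i) (isUnit_dehom R i)).comp
    (algebraMap (Ch R i) (Localization.Away (X i : MvPolynomial (Fin 2) R)))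

lemma ofCh_crd (i : Fin 2) : ofCh R i (crd R i) = Polynomial.X := by
  rw [ofCh, RingHom.comp_apply, HomogeneousLocalization.algebraMap_apply]
  have h := congrArg (Localization.awayLift (dehom R i) (X i) (isUnit_dehom R i)) (val_crd R i)
  have : (1 - i = i) ↔ False := by fin_cases i <;> simp
  rw [map_mul, Localization.awayLift, IsLocalization.Away.lift_eq, IsLocalization.Away.lift_eq] at h
  simpa [dehom, this] using h

lemma ofCh_cst (i : Fin 2) (r : R) : ofCh R i (cst R i r) = Polynomial.C r := by
  rw [ofCh, RingHom.comp_apply, HomogeneousLocalization.algebraMap_apply, val_cst]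
  rw [Localization.awayLift, IsLocalization.Away.lift_eq]
  simp [dehom]

lemma ofCh_comp_toCh (i : Fin 2) : (ofCh R i).comp (toCh R i) = RingHom.id _ := by
  apply Polynomial.ringHom_ext
  · intro r
    simp [toCh, ofCh_cst]
  · simp [toCh, ofCh_crd]

lemma hom_eval (i : Fin 2) (n : ℕ) (p : MvPolynomial (Fin 2) R) (hp : p.IsHomogeneous n) :
    loc R i p = (loc R i (X i)) ^ n * (toCh R i (dehom R i p)).val := by
  have hg : ∀ k : Fin 2, loc R i (X k) =
      loc R i (X i) * (algebraMap (Ch R i) _ (toCh R i (dehom R i (X k)))) := by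
    intro k
    by_cases hk : k = i
    · subst hk
      simp [dehom]
    · have hk' : k = 1 - i := by
        revert hk
        fin_cases i <;> fin_cases k <;> simp
      have := val_crd R i
      rw [hk', ← this]
      have h1 : (1 - i = i) ↔ False := by rw [← hk']; simp [hk]
      simp [dehom, h1, toCh]
  have hc : ∀ c : R, loc R i (C c) =
      (algebraMap (Ch R i) _ (toCh R i (dehom R i (C c)))) := by
    intro c
    simp [dehom, toCh, val_cst]
  rw [← HomogeneousLocalization.algebraMap_apply]
  conv_lhs => rw [p.as_sum]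
  conv_rhs => rw [p.as_sum]
  simp only [map_sum, Finset.mul_sum]
  refine Finset.sum_congr rfl fun d hd => ?_
  have hdeg : ∑ k, d k = n := by
    have := hp (mem_support_iff.1 hd)
    rw [← this]
    simp [Finsupp.weight_apply, Finsupp.sum_fintype]
  rw [monomial_eq, Finsupp.prod_fintype _ _ (by simp)]
  simp only [map_mul, map_prod, map_pow]
  rw [hc, ← hdeg, ← Finset.prod_pow_eq_pow_sum]
  simp only [Fin.prod_univ_two]
  rw [hg 0, hg 1]
  ring

lemma toCh_ofCh (i : Fin 2) (x : Ch R i) : toCh R i (ofCh R i x) = x := by
  obtain ⟨n, a, ha, rfl⟩ := HomogeneousLocalization.Away.mk_surjective (gr R) (X_mem R i) x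
  have ha' : a.IsHomogeneous n := by simpa using (mem_homogeneousSubmodule _ _).1 ha
  apply HomogeneousLocalization.val_injective
  rw [ofCh, RingHom.comp_apply, HomogeneousLocalization.algebraMap_apply]
  have h1 : loc R i (X i) ^ n * (HomogeneousLocalization.Away.mk (gr R) (X_mem R i) n a ha).val =
      loc R i a := by
    rw [HomogeneousLocalization.Away.val_mk, ← map_pow, loc, ← Localization.mk_one_eq_algebraMap,
    ← Localization.mk_one_eq_algebraMap, Localization.mk_mul, Localization.mk_eq_mk_iff,
    Localization.r_iff_exists]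
    exact ⟨1, by simp⟩
  have h2 := congrArg (Localization.awayLift (dehom R i) (X i) (isUnit_dehom R i)) h1
  rw [map_mul, map_pow, Localization.awayLift, IsLocalization.Away.lift_eq,
    IsLocalization.Away.lift_eq] at h2
  have h3 : dehom R i (X i) = 1 := by simp [dehom]
  rw [h3, one_pow, one_mul] at h2
  rw [Localization.awayLift, h2]
  have h4 := hom_eval R i n a ha'
  rw [← h1] at h4
  have hu : IsUnit (loc R i (X i) ^ n) :=
    (IsLocalization.Away.algebraMap_isUnit _).pow n
  exact (hu.mul_left_cancel h4).symm

/-- The chart is a polynomial ring. -/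
def chEquiv (i : Fin 2) : Polynomial R ≃+* Ch R i :=
  RingEquiv.ofRingHom (toCh R i) (ofCh R i) (by ext x; exact congrArg _ (toCh_ofCh R i x))
    (ofCh_comp_toCh R i)

lemma chEquiv_C (i : Fin 2) (r : R) : chEquiv R i (Polynomial.C r) = cst R i r := by
  simp [chEquiv, toCh]

lemma chEquiv_X (i : Fin 2) : chEquiv R i Polynomial.X = crd R i := by
  simp [chEquiv, toCh]

end

end Pool.Agent.H99.P1
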