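import Pool.Agent.H99.P1.Chart

/-!
The projective line `Proj R[x₀,x₁] → Spec R`: charts, smoothness of relative dimension one,
finite type, properness.
-/

open CategoryTheory AlgebraicGeometry Limits TopologicalSpace MvPolynomial Opposite

namespace Pool.Agent.H99.P1

noncomputable section

attribute [local instance] MvPolynomial.gradedAlgebra

/-- one free variable gives a submersive presentation -/
def mvPres (R : Type) [CommRing R] :
    Algebra.SubmersivePresentation R (MvPolynomial Unit R) Unit PEmpty.{1} where
  __ := Algebra.Generators.mvPolynomial (R := R) (ι := Unit)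
  relation := PEmpty.elim
  span_range_relation_eq_ker := by
    rw [Set.range_eq_empty, Ideal.span_empty]
    symm
    rw [eq_bot_iff]
    intro x hx
    have h : (aeval (R := R) (X : Unit → MvPolynomial Unit R)) x = 0 := hx
    simpa using h
  map := PEmpty.elim
  map_inj := fun a => a.elim
  jacobian_isUnit := by
    classical
    rw [Algebra.PreSubmersivePresentation.jacobian_eq_jacobiMatrix_det, Matrix.det_isEmpty]
    simp

instance stdMv (R : Type) [CommRing R] :
    Algebra.IsStandardSmoothOfRelativeDimension 1 R (MvPolynomial Unit R) :=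
  (mvPres R).isStandardSmoothOfRelativeDimension (by simp [Algebra.Presentation.dimension])

instance stdPoly (R : Type) [CommRing R] :
    Algebra.IsStandardSmoothOfRelativeDimension 1 R (Polynomial R) :=
  .of_algEquiv 1 (MvPolynomial.uniqueAlgEquiv R Unit)

variable (R : Type) [CommRing R]

set_option linter.dupNamespace false in
/-- The projective line over `R` -/
abbrev P1 : Scheme.{0} := Proj (gr R)

/-- The structure morphism. -/
def str : P1 R ⟶ Spec (.of R) :=
  Proj.toSpecZero (gr R) ≫ Spec.map (CommRingCat.ofHom (algebraMap R (gr R 0)))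

/-- The charts. -/
def ch (i : Fin 2) : Spec (.of (Ch R i)) ⟶ P1 R :=
  Proj.awayι (gr R) (X i) (X_mem R i) one_pos

instance (i : Fin 2) : IsOpenImmersion (ch R i) := by
  unfold ch; infer_instance

@[reassoc]
lemma ch_str (i : Fin 2) : ch R i ≫ str R = Spec.map (CommRingCat.ofHom (cst R i)) := by
  rw [ch, str, Proj.awayι_toSpecZero_assoc, ← Spec.map_comp]
  rfl

lemma adjoin_eq_top : Algebra.adjoin (gr R 0) (Set.range (X : Fin 2 → MvPolynomial (Fin 2) R)) = ⊤ := by
  rw [eq_top_iff]
  intro x _
  have h := MvPolynomial.adjoin_range_X (σ := Fin 2) (R := R)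
  have hx : x ∈ Algebra.adjoin R (Set.range (X : Fin 2 → MvPolynomial (Fin 2) R)) := by
    rw [h]; trivial
  induction hx using Algebra.adjoin_induction with
  | mem x hx => exact Algebra.subset_adjoin hx
  | algebraMap r =>
    exact Subalgebra.algebraMap_mem (Algebra.adjoin (gr R 0) _) (algebraMap R (gr R 0) r)
  | add x y _ _ hx hy => exact add_mem (hx trivial) (hy trivial)
  | mul x y _ _ hx hy => exact mul_mem (hx trivial) (hy trivial)

instance finType0 : Algebra.FiniteType (gr R 0) (MvPolynomial (Fin 2) R) :=
  ⟨⟨Set.Finite.toFinset (Set.finite_range X), by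
    rw [Set.Finite.coe_toFinset]; exact adjoin_eq_top R⟩⟩

lemma opensRange_ch (i : Fin 2) : (ch R i).opensRange = Proj.basicOpen (gr R) (X i) :=
  Proj.opensRange_awayι _ _ _ _

lemma iSup_ch : ⨆ i, (ch R i).opensRange = ⊤ := by
  have := Proj.iSup_basicOpen_eq_top' (gr R) (X : Fin 2 → MvPolynomial (Fin 2) R)
    (fun i => ⟨1, X_mem R i⟩) (adjoin_eq_top R)
  simpa [opensRange_ch] using this

lemma bij_zero : Function.Bijective (algebraMap R (gr R 0)) := by
  constructor
  · intro a b h
    have h1 : (C a : MvPolynomial (Fin 2) R) = C b := congrArg Subtype.val h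
    exact C_injective _ _ h1
  · rintro ⟨x, hx⟩
    have hx' : x ∈ homogeneousSubmodule (Fin 2) R 0 := hx
    rw [homogeneousSubmodule_zero] at hx'
    obtain ⟨r, hr⟩ := Submodule.mem_one.1 hx'
    exact ⟨r, Subtype.ext hr⟩

instance isIso_zero : IsIso (Spec.map (CommRingCat.ofHom (algebraMap R (gr R 0)))) := by
  have : IsIso (CommRingCat.ofHom (algebraMap R (gr R 0))) :=
    (ConcreteCategory.isIso_iff_bijective _).2 (bij_zero R)
  infer_instance

instance locSrc (n : ℕ) : IsZariskiLocalAtSource (@SmoothOfRelativeDimension.{0} n) :=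
  @HasRingHomProperty.instIsZariskiLocalAtSource (@SmoothOfRelativeDimension.{0} n)
    (RingHom.Locally (RingHom.IsStandardSmoothOfRelativeDimension n)) inferInstance

instance locTgt (n : ℕ) : IsZariskiLocalAtTarget (@SmoothOfRelativeDimension.{0} n) :=
  @HasRingHomProperty.instIsZariskiLocalAtTarget (@SmoothOfRelativeDimension.{0} n)
    (RingHom.Locally (RingHom.IsStandardSmoothOfRelativeDimension n)) inferInstance

instance bcSm (n : ℕ) : MorphismProperty.IsStableUnderBaseChange
    (@SmoothOfRelativeDimension.{0} n) :=
  smoothOfRelativeDimension_isStableUnderBaseChange n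

instance respSm (n : ℕ) : MorphismProperty.RespectsIso
    (@SmoothOfRelativeDimension.{0} n) :=
  (locTgt n).toRespects

lemma smooth_Spec {R S : Type} [CommRing R] [CommRing S] (n : ℕ) (f : R →+* S)
    (hf : RingHom.IsStandardSmoothOfRelativeDimension n f) :
    SmoothOfRelativeDimension n (Spec.map (CommRingCat.ofHom f)) :=
  (@HasRingHomProperty.Spec_iff (@SmoothOfRelativeDimension.{0} n)
    (RingHom.Locally (RingHom.IsStandardSmoothOfRelativeDimension n)) inferInstance _ _ _).2
    (RingHom.locally_of
      RingHom.isStandardSmoothOfRelativeDimension_respectsIso _ hf)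

lemma cst_std (i : Fin 2) : RingHom.IsStandardSmoothOfRelativeDimension 1 (cst R i) := by
  have h1 : RingHom.IsStandardSmoothOfRelativeDimension 1 (Polynomial.C : R →+* Polynomial R) := by
    rw [← Polynomial.algebraMap_eq, RingHom.isStandardSmoothOfRelativeDimension_algebraMap]
    infer_instance
  have h2 : cst R i = (chEquiv R i : Polynomial R →+* Ch R i).comp Polynomial.C := by
    ext r
    exact congrArg _ (chEquiv_C R i r).symm
  rw [h2]
  exact (RingHom.isStandardSmoothOfRelativeDimension_respectsIso (n := 1)).1 _ (chEquiv R i) h1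

instance smooth_str : SmoothOfRelativeDimension 1 (str R) := by
  rw [IsZariskiLocalAtSource.iff_of_iSup_eq_top (P := @SmoothOfRelativeDimension 1) _ (iSup_ch R)]
  intro i
  rw [← MorphismProperty.cancel_left_of_respectsIso (P := @SmoothOfRelativeDimension 1)
    (ch R i).isoOpensRange.hom, ← Category.assoc, Scheme.Hom.isoOpensRange_hom_ι, ch_str]
  exact smooth_Spec 1 _ (cst_std R i)

instance proper_str : IsProper (str R) := by
  unfold str; infer_instance

end

end Pool.Agent.H99.P1
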